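import Pool.Agent.Run7.h326.NC9

/-!
# MP_d5a1e1_nt, Q1: a near-counterexample for every order `h`

`rep A h n` is the unordered representation function `r_{A,h}(n)` of the problem.

**Theorem.** For every `h ≥ 2` there is a set `A` of natural numbers such that

1. every large `n` is a sum of `h` elements of `A` (`A` is an asymptotic basis of order `h`);
2. `r_{A,h}(n) = 1` for all `n ≤ x` with at most `C x / log log x` exceptions;
3. `r_{A,h}(n) ≤ C (log n) ^ (h ^ 2)` for all `n ≥ 2`;
4. `A` has at most `C x ^ (1 / h)` elements up to `x`, for all `x ≥ 1`.

So `A` satisfies all the requirements of a counterexample to the conjecture with the exception of a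
set of integers of density zero, and there `r_{A,h}(n)` is at most polylogarithmic. For `h = 2` this
is the starting result `MP_12a1af_nt.NearCounterexample`.

Construction. Let `q = h! + 1` and `g = q ^ h`; the digits of a number in base `q` are grouped in `h`
classes according to their position modulo `h`. The elements of `A` have a type `c < h`. In the
blocks of digits (block `i` has `2 l_i` digits in base `g`, where `l_i` tends to infinity slowly) an
element of type `c` has free digits at the positions `≡ c`, and its digits at the other positions
form a hash value which depends on all the lower digits. Therefore every residue class modulo a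
power of `g` is in exactly one way a sum of elements of the types `0, 1, …, h - 1`, whatever the
hash values are. The integers `1, …, h` are coprime to `q`, so the hash value of an element which
occurs `b` times in a sum is as good as a random one, and a proper choice of all the hash values
(exponential moments of the numbers of `k`-fold sums, for all `k ≤ h` simultaneously, and
conditional expectations) makes all multiplicities small. The change from one block to the next one
takes place at `l_i` different places depending on the lower digits, so that it concerns at each
scale only a proportion of `1 / l_i` of the integers.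
-/

set_option autoImplicit false

open Finset

namespace Pool.Agent.Results.MP_d5a1e1_nt.NearCounterexample

/-- `rep A h n`: the number of multisets of `h` elements of `A` with sum `n` -/
noncomputable def rep (A : Set ℕ) (h n : ℕ) : ℕ :=
  {s : Multiset ℕ | Multiset.card s = h ∧ (∀ a ∈ s, a ∈ A) ∧ s.sum = n}.ncard

open scoped Classical in
/-- A thin asymptotic basis of order `h` with `r_{A,h}(n) = 1` for almost all `n` and a
polylogarithmic bound for all `n`. -/
theorem result (h : ℕ) (hh : 2 ≤ h) :
    ∃ A : Set ℕ, (∃ N : ℕ, ∀ n ≥ N, 1 ≤ rep A h n) ∧
      (∃ C : ℝ, ∀ x : ℕ, 16 ≤ x → (((Icc 1 x).filter (fun n => rep A h n ≠ 1)).card : ℝ) ≤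
        C * (x / Real.log (Real.log x))) ∧
      (∃ C : ℝ, ∀ n : ℕ, 2 ≤ n → (rep A h n : ℝ) ≤ C * Real.log n ^ h ^ 2) ∧
      (∃ C : ℝ, ∀ x : ℕ, 1 ≤ x → (((Icc 0 x).filter (fun a => a ∈ A)).card : ℝ) ≤
        C * (x : ℝ) ^ ((h : ℝ)⁻¹)) := by
  obtain ⟨H, rfl⟩ := Run7.h326.NC.par_exists h hh
  obtain ⟨Y⟩ := Run7.h326.NC.sys_exists H
  exact ⟨Y.A, Y.rep_pos_of_ge, Y.exceptions, Y.rep_le_log, _, fun x hx => Y.thin_rpow x hx⟩

end Pool.Agent.Results.MP_d5a1e1_nt.NearCounterexample
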