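import Pool.Agent.Run7.h326.RP5

/-!
# MP_d5a1e1_nt, Q1: the conjecture of every order holds almost surely after a small perturbation

`rep A h n` is the unordered representation function `r_{A,h}(n)` of the problem.  Let
`A = {a_0 < a_1 < ...}` be an asymptotic basis of order `h ≥ 2`, or any set with `a_n ≤ C n ^ h` for
infinitely many `n`, and move its elements to the right by independent random amounts:
`A' = {a_n + Z_n}`.

1. For every `K` there is `L`, which depends only on `h`, `K` and `C`, such that almost surely
   `r_{A',h}(n) ≥ K` for infinitely many `n`, whenever every `z ≤ L` is taken by `Z_n` with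
   probability at least `n ^ (-1 / (2 h (K + 1)))` for all large `n`.  (Example: all `Z_n` are
   uniformly distributed on `{0, ..., L}`.)
2. If every fixed `z` is taken by `Z_n` with probability at least `n ^ (-o(1))`, then `r_{A',h}` is
   almost surely unbounded.  (Examples: identically distributed `Z_n` with arbitrarily small tails
   for which all natural numbers have positive probability; `Z_n` uniformly distributed on
   `{0, ..., w_n}`, where `w_n` tends to infinity as slowly as we like; the probability of
   `Z_n ≠ 0` may tend to zero.)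

For `h = 2` this is the starting result `MP_12a1af_nt.RandomPerturbations`.

Method.  Among `m` elements which are at most `D m ^ h` there are many sums of `h` elements in some
interval of bounded length.  By the sunflower lemma we find `K` of them which have a common part and
are disjoint otherwise; if the disjoint parts have only one element, we replace them by pairs.  So
bounded shifts of a bounded number of elements produce `K` representations of one number.  There are
`≫ N` disjoint possibilities among the elements `a_n`, `N / 2 ≤ n < N`.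
-/

set_option autoImplicit false

open Filter MeasureTheory ProbabilityTheory

namespace Pool.Agent.Results.MP_d5a1e1_nt.RandomShifts

universe u

/-- `rep A h n`: the number of multisets of `h` elements of `A` with sum `n` -/
noncomputable def rep (A : Set ℕ) (h n : ℕ) : ℕ :=
  {s : Multiset ℕ | Multiset.card s = h ∧ (∀ a ∈ s, a ∈ A) ∧ s.sum = n}.ncard

/-- The conjecture of Erdős and Turán of every order `h ≥ 2`, in its strong form, holds almost
surely after small independent random shifts. -/
theorem result (h : ℕ) (hh : 2 ≤ h) :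
    (∀ (K : ℕ) (C : ℝ), ∃ L : ℕ, ∀ a : ℕ → ℕ, StrictMono a →
      ((∃ n₀, ∀ n ≥ n₀, 1 ≤ rep (Set.range a) h n) ∨
        ∃ᶠ n : ℕ in atTop, (a n : ℝ) ≤ C * (n : ℝ) ^ h) →
      ∀ (Ω : Type u) [MeasurableSpace Ω] (P : Measure Ω) [IsProbabilityMeasure P]
        (Z : ℕ → Ω → ℕ), (∀ n, Measurable (Z n)) → iIndepFun Z P →
        (∀ z ≤ L, ∀ᶠ n : ℕ in atTop,
          (n : ℝ) ^ (-(1 / (2 * (h * (K + 1)))) : ℝ) ≤ P.real {ω | Z n ω = z}) →
        ∀ᵐ ω ∂P, ∃ᶠ n in atTop, K ≤ rep (Set.range (fun i => a i + Z i ω)) h n) ∧
    (∀ a : ℕ → ℕ, StrictMono a →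
      ((∃ n₀, ∀ n ≥ n₀, 1 ≤ rep (Set.range a) h n) ∨
        ∃ C : ℝ, ∃ᶠ n : ℕ in atTop, (a n : ℝ) ≤ C * (n : ℝ) ^ h) →
      ∀ (Ω : Type u) [MeasurableSpace Ω] (P : Measure Ω) [IsProbabilityMeasure P]
        (Z : ℕ → Ω → ℕ), (∀ n, Measurable (Z n)) → iIndepFun Z P →
        (∀ z : ℕ, ∀ ε : ℝ, 0 < ε → ∀ᶠ n : ℕ in atTop,
          (n : ℝ) ^ (-ε) ≤ P.real {ω | Z n ω = z}) →
        ∀ᵐ ω ∂P, ∀ K : ℕ, ∃ᶠ n in atTop, K ≤ rep (Set.range (fun i => a i + Z i ω)) h n) :=
  ⟨fun K C => Run7.h326.RP.main_both.{u} h K hh C,
    fun a ha hgr Ω _ P _ Z hZ hind hp =>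
      Run7.h326.RP.main_unbounded.{u} h hh a ha hgr Ω P Z hZ hind hp⟩

end Pool.Agent.Results.MP_d5a1e1_nt.RandomShifts
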