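import Pool.Agent.Run7.h326.V7

/-!
# MP_d5a1e1_nt, Q1 (all orders): a gap between the small and the large values of `r_{A,h}`

`rep A h n` is the unordered representation function `r_{A,h}(n)` of the problem.

**Theorem.** Let `h ≥ 2`, `l ≥ 1` and let `A` be a set of natural numbers with `r_{A,h}(n) ≥ l` for all
large `n`. Then `r_{A,h}` is unbounded, or the set of all `n` with
`√(r_{A,h}(n)) ≥ √l + √(1 - 1 / C(h, ⌊h/2⌋))` has positive lower density.

For `l = 1`: for an asymptotic basis `A` of order `h ≥ 3` the set of all `n` with `r_{A,h}(n) ≥ 4` is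
infinite, and it has positive lower density if `r_{A,h}` is bounded.

Method. Let `h = p + q` with `p = ⌈h/2⌉`, `q = ⌊h/2⌋`, and let
`V(d)` be the weighted number of pairs (`p`-tuple `a`, `q`-tuple `b`) of elements of `A` without common
entries and with `Σ a - Σ b = d`. The local variance of `V` is nonnegative. Expanding it we compare
it with the local variance of the ordered representation function of order `h`; the difference
contains the `h! - p! q!` trivial solutions of `Σ c = Σ e` which are not compatible with the
splitting, and the other terms are negligible. Hence the local variance of `r_{A,h}` is at least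
`1 - 1 / C(h, p)` times its mean.
-/

set_option autoImplicit false

open Finset Filter

namespace Pool.Agent.Results.MP_d5a1e1_nt.RepresentationGap

/-- `rep A h n`: the number of multisets of `h` elements of `A` with sum `n` -/
noncomputable def rep (A : Set ℕ) (h n : ℕ) : ℕ :=
  {s : Multiset ℕ | Multiset.card s = h ∧ (∀ a ∈ s, a ∈ A) ∧ s.sum = n}.ncard

open scoped Classical in
theorem result (h : ℕ) (hh : 2 ≤ h) (A : Set ℕ) (l : ℕ) (hl : 1 ≤ l)
    (hA : ∀ᶠ n in atTop, l ≤ rep A h n) :
    (∀ C : ℕ, ∃ n, C < rep A h n) ∨
      ∃ δ : ℝ, 0 < δ ∧ ∀ᶠ N : ℕ in atTop,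
        δ * N ≤ (((range N).filter (fun n =>
          √(l : ℝ) + √(1 - 1 / (h.choose (h / 2) : ℝ)) ≤ √(rep A h n : ℝ))).card : ℝ) := by
  by_cases hb : ∃ C, ∀ n, rep A h n ≤ C
  · exact Or.inr (Run7.h326.VL.main hh A l hl hA hb)
  · push Not at hb
    exact Or.inl hb

end Pool.Agent.Results.MP_d5a1e1_nt.RepresentationGap
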