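import Pool.Agent.H303R3.ET.SpecC
import Pool.Agent.Run7.h326.SP11

/-!
# MP_d5a1e1_nt, Q1: bounded representation functions of every order are far from structured functions

`rep A h n` is the unordered representation function `r_{A,h}(n)` of the problem, `h ≥ 2`.  All the
statements are about the sets `A` which are asymptotic bases of order `h` or have at least
`(c N)^(1/h)` elements below `N` for all large `N`.

1. If `r_{A,h}` is within mean square distance `κ < 1 - 1 / C(h, ⌊h/2⌋)` (relative to its mean) of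
   a function with concentrated generating function, then `r_{A,h}` is unbounded, even in mean square.
   (Every function whose spectral measure is singular has a concentrated generating function; for
   example the periodic and the Besicovitch almost periodic functions.)
2. If `r_{A,h}` is bounded, then no linear recurrence with integer coefficients holds for almost all
   `n`, not even approximately: for every nonzero integer polynomial `g` with `∑ g_j ^ 2 ≤ V` the set
   of the `n` with `∑ g_j r_{A,h}(n + j) ≠ 0` has lower density at least `δ(h, c, V, sup r_{A,h})`, and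
   `δ` does not depend on the length of the recurrence.  For `g = X^τ - 1`: for every shift `τ ≥ 1` the
   set of the `n` with `r_{A,h}(n + τ) ≠ r_{A,h}(n)` has lower density at least `δ`.

This extends the theorem of Dirac (`r_{A,2}` is not eventually constant).  For `h = 2` part 1 and
the case `g = X^τ - 1` of part 2 are the starting results `SingularSpectrum` and `ShiftGap` for
MP_12a1af_nt.

Method.  Let `F(z) = ∑_{a ∈ A} z^a`, `|z| = ρ`, `M = ∑ ρ^(2a)`, so that `∑ r(n) ρ^(2n)` is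
about `M^h / h!`.  Write `|F|^h = |G|`, `G = F^p conj(F)^q`, `p = ⌈h/2⌉`, `q = ⌊h/2⌋`, and
`G = G' + G''`, where `G''` contains the pairs of tuples in `A^p × A^q` with a common entry.  By
inclusion and exclusion `|G''|^2` is at most a combination of `M^(h-s) |F|^(2s)`, `s ≤ h - 2`, so
its integral over a small set `E` of angles is `o(M^h)`.  The solutions
`{a, b'} = {a', b}` of `∑ a - ∑ b = ∑ a' - ∑ b'` which do not come from disjoint pairs show that
`∫ |G|^2 - ∫ |G'|^2 ≥ (h! - p! q! - o(1)) M^h`.  Hence the integral of `|F|^(2h)` over the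
complement of `E` is at least `(h! - p! q! - o(1)) M^h` for **every** small set `E`.
For part 2, `E` is the set where `|g|` is small; by Jensen's formula its measure is at most
`π V / log (1 / s)`, if small means less than `s`.
-/

set_option autoImplicit false

open Filter Topology MeasureTheory Finset

namespace Pool.Agent.Results.MP_d5a1e1_nt.Rigidity

local instance twoPiPos : Fact (0 < 2 * Real.pi) := Fact.mk Real.two_pi_pos

/-- `rep A h n`: the number of multisets of `h` elements of `A` with sum `n` -/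
noncomputable def rep (A : Set ℕ) (h n : ℕ) : ℕ :=
  {s : Multiset ℕ | Multiset.card s = h ∧ (∀ a ∈ s, a ∈ A) ∧ s.sum = n}.ncard

/-- `A` is an asymptotic basis of order `h`, or `A` has at least `(c N)^(1/h)` elements below `N`
for all large `N`. -/
def Thick (A : Set ℕ) (h : ℕ) (c : ℝ) : Prop :=
  (∃ n₀, ∀ n ≥ n₀, 1 ≤ rep A h n) ∨
    ∀ᶠ N : ℕ in atTop, c * N ≤ ({a : ℕ | a ∈ A ∧ a < N}.ncard : ℝ) ^ h

/-- `P` has singular spectrum: the limits `lim_N (1/N) ∑_{n<N} P(n+k) P(n)`, `k ≥ 0`, exist and are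
the Fourier coefficients `∫ e^{ikx} dσ(x)` of a finite measure `σ` on the circle `ℝ/2πℤ` that is
singular with respect to Lebesgue measure. -/
def SingSpec (P : ℕ → ℝ) : Prop :=
  ∃ σ : Measure (AddCircle (2 * Real.pi)), IsFiniteMeasure σ ∧
    Measure.MutuallySingular σ volume ∧
    ∀ k : ℕ, Tendsto (fun N : ℕ => (((∑ n ∈ range N, P (n + k) * P n) / N : ℝ) : ℂ)) atTop
      (𝓝 (∫ x, (fourier (k : ℤ) x : ℂ) ∂σ))

/-- `P` has concentrated generating function: for every `ε > 0` there are `ρ < 1` arbitrarily close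
to `1` and a measurable set `V` of angles of measure at most `ε` such that
`(1 - ρ) ∫_{(0,2π] ∖ V} |∑_n P(n) ρ^n e^{inθ}|² dθ ≤ ε`. -/
def Concentrated (P : ℕ → ℝ) : Prop :=
  ∀ ε : ℝ, 0 < ε → ∃ᶠ ρ : ℝ in 𝓝[<] 1, ∃ V : Set ℝ, MeasurableSet V ∧
    volume V ≤ ENNReal.ofReal ε ∧ (1 - ρ) * ∫ θ in Set.Ioc 0 (2 * Real.pi) \ V,
      ‖∑' n : ℕ, (P n : ℂ) * (ρ * Complex.exp (θ * Complex.I)) ^ n‖ ^ 2 ≤ ε

theorem conc_iff (P : ℕ → ℝ) : Concentrated P ↔ Pool.Agent.H303R3.ET.Conc P := by
  have h : ∀ (ρ θ : ℝ), (ρ * Complex.exp (θ * Complex.I) : ℂ) = circleMap 0 ρ θ := by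
    intro ρ θ
    rw [circleMap_zero]
  unfold Concentrated Pool.Agent.H303R3.ET.Conc
  simp_rw [h]

/-- Let `h ≥ 2`.

(1) Let `A` be thick, let `P : ℕ → ℝ` have concentrated generating function, and let
`κ < 1 - 1 / C(h, ⌊h/2⌋)`.  If `∑_{n<N} (r_{A,h}(n) - P(n))² ≤ κ ∑_{n<N} r_{A,h}(n)` for all large
`N`, then `r_{A,h}` is unbounded; in fact `∑_{n<N} r_{A,h}(n)² > B N` for arbitrarily large `N`, for
every `B`.

(2) Every `P` with singular spectrum has concentrated generating function.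

(3) For all `c > 0`, `B` and `V` there is `δ > 0` such that, if `A` is thick and
`∑_{n<N} r_{A,h}(n)² ≤ B N` for all large `N`, then
`∑_{n<N} (∑_j g_j r_{A,h}(n+j))² ≥ δ N` for all large `N`, for every nonzero integer polynomial
`∑ g_j X^j` with `∑ g_j² ≤ V`.

(4) For all `c > 0`, `K` and `V` there is `δ > 0` such that, if `A` is thick and `r_{A,h} ≤ K`, then
`#{n < N : ∑_j g_j r_{A,h}(n+j) ≠ 0} ≥ δ N` for all large `N`, for every nonzero integer polynomial
`∑ g_j X^j` with `∑ g_j² ≤ V`. -/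
theorem result (h : ℕ) (hh : 2 ≤ h) :
    (∀ (A : Set ℕ) (c κ : ℝ) (P : ℕ → ℝ), 0 < c → Thick A h c → Concentrated P →
      κ < 1 - 1 / (h.choose (h / 2) : ℝ) →
      (∀ᶠ N : ℕ in atTop, ∑ n ∈ range N, ((rep A h n : ℝ) - P n) ^ 2 ≤
        κ * ∑ n ∈ range N, (rep A h n : ℝ)) →
      (∀ B : ℝ, ∃ᶠ N : ℕ in atTop, B * N < ∑ n ∈ range N, (rep A h n : ℝ) ^ 2) ∧
        ∀ K : ℕ, ∃ n : ℕ, K < rep A h n) ∧
    (∀ P : ℕ → ℝ, SingSpec P → Concentrated P) ∧
    (∀ c B V : ℝ, 0 < c → ∃ δ : ℝ, 0 < δ ∧ ∀ A : Set ℕ, Thick A h c →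
      (∀ᶠ N : ℕ in atTop, ∑ n ∈ range N, (rep A h n : ℝ) ^ 2 ≤ B * N) →
      ∀ g : Polynomial ℤ, g ≠ 0 → ∑ j ∈ g.support, (g.coeff j : ℝ) ^ 2 ≤ V →
      ∀ᶠ N : ℕ in atTop, δ * N ≤ ∑ n ∈ range N,
        (∑ j ∈ g.support, (g.coeff j : ℝ) * (rep A h (n + j) : ℝ)) ^ 2) ∧
    (∀ (c : ℝ) (K V : ℕ), 0 < c → ∃ δ : ℝ, 0 < δ ∧ ∀ A : Set ℕ, Thick A h c →
      (∀ n, rep A h n ≤ K) →
      ∀ g : Polynomial ℤ, g ≠ 0 → ∑ j ∈ g.support, (g.coeff j) ^ 2 ≤ (V : ℤ) →
      ∀ᶠ N : ℕ in atTop, δ * N ≤ ({n : ℕ | n < N ∧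
        ∑ j ∈ g.support, g.coeff j * (rep A h (n + j) : ℤ) ≠ 0}.ncard : ℝ)) := by
  refine ⟨fun A c κ P hc hA hP hκ hd => ?_, fun P hP => ?_, fun c B V hc => ?_,
    fun c K V hc => ?_⟩
  · exact Run7.h326.SP.final_one hh hc hA ((conc_iff P).mp hP) hκ hd
  · obtain ⟨σ, hfin, hσ, h1⟩ := hP
    rw [conc_iff]
    exact Pool.Agent.H303R3.ET.spec_conc (σ := σ) h1 hσ
  · exact Run7.h326.SP.final_gap hh c B V hc
  · exact Run7.h326.SP.final_count hh c K V hc

end Pool.Agent.Results.MP_d5a1e1_nt.Rigidity
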